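import Pool.Agent.H39.EQ.E7

/-!
# The direction of an absolutely continuous state of the Anderson model is equidistributed

`Δ_ω = -Δ + ω` on `ℤ^d`, `ω_j` iid with any law of bounded support which is not a point mass, for
instance `P(ω_j = ±1) = 1/2`. Let `F` be a bounded function of the position which is asymptotically
translation invariant (its increments are small off finitely many slabs), for instance the
indicator function of a half-space or of a cone with flat faces, and consider the time averages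
`M_T = (1/T) ∫_0^T e^{isΔ_ω} F e^{-isΔ_ω} ds`. On the absolutely continuous subspace every limit of
these averages is a function of `Δ_ω`: the asymptotic direction of an absolutely continuous state can
only depend on the energy. If the average of `F` over the `2^d d!` signed permutations of the
coordinates is a constant `c` (off slabs), then the limit is `c`: half of the mass in every half-space,
the fraction `1 / (2^d d!)` in every Weyl chamber, whatever the state.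
-/

set_option autoImplicit false

open MeasureTheory Filter Topology
open scoped BigOperators ENNReal NNReal InnerProductSpace ComplexConjugate

namespace Pool.Agent.Results.MP_d0f69c_mp.DirectionsEquidistribute

/-- `ℓ²(ℤ^d)` -/
abbrev L2 (d : ℕ) : Type := lp (fun _ : Fin d → ℤ => ℂ) 2

/-- potentials on `ℤ^d` -/
abbrev Pot (d : ℕ) : Type := (Fin d → ℤ) → ℝ

/-- the operator of the problem, `(Δ_ω u)(j) = -∑_{|n|=1} (u(j+n) - u(j)) + ω_j u(j)` (the unit
vectors `n` are `± e_i`) -/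
noncomputable def H {d : ℕ} (ω : Pot d) (u : (Fin d → ℤ) → ℂ) (j : Fin d → ℤ) : ℂ :=
  -(∑ i : Fin d, ((u (j + Pi.single i 1) - u j) + (u (j - Pi.single i 1) - u j))) + (ω j : ℂ) * u j

/-- `U t = e^{-itΔ_ω}`: norm preserving maps of `ℓ²(ℤ^d)` with `U 0 = 1` and `i ∂_t (U_t u) = Δ_ω U_t u`
at every site -/
structure IsPropagator {d : ℕ} (ω : Pot d) (U : ℝ → L2 d → L2 d) : Prop where
  zero : ∀ u, U 0 u = u
  norm : ∀ t u, ‖U t u‖ = ‖u‖
  schrodinger : ∀ u t j, HasDerivAt (fun s => (U s u) j)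
    (-Complex.I * H ω (fun k => (U t u) k) j) t

/-- `m` is the spectral measure of `u`: the finite measure with
`⟨u, e^{-itΔ_ω} u⟩ = ∫ e^{-itE} dm(E)` -/
def IsSpectral {d : ℕ} (U : ℝ → L2 d → L2 d) (u : L2 d) (m : Measure ℝ) : Prop :=
  IsFiniteMeasure m ∧
    ∀ t : ℝ, ⟪u, U t u⟫_ℂ = ∫ E : ℝ, Complex.exp (-(Complex.I * t * E)) ∂m

/-- `u` is in the absolutely continuous subspace -/
def IsAC {d : ℕ} (U : ℝ → L2 d → L2 d) (u : L2 d) : Prop :=
  ∃ m : Measure ℝ, IsSpectral U u m ∧ m ≪ volume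

/-- the law of iid variables with law `μ` on `ℤ^d` -/
noncomputable def iid (d : ℕ) (μ : Measure ℝ) : Measure (Pot d) :=
  Measure.infinitePi fun _ => μ

/-- the average over the times `s ∈ [0, T]` of `⟨U_s w, F U_s u⟩ = ∑_x F(x) conj((U_s w)(x)) (U_s u)(x)` -/
noncomputable def timeAverage {d : ℕ} (U : ℝ → L2 d → L2 d) (F : (Fin d → ℤ) → ℂ) (w u : L2 d)
    (T : ℝ) : ℂ :=
  (T : ℂ)⁻¹ * ∫ s in (0 : ℝ)..T, ∑' x, F x * (conj ((U s w) x) * (U s u) x)

/-- the slab `{x : |n·x - c| ≤ R}` -/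
def Slab {d : ℕ} (n : Fin d → ℝ) (c R : ℝ) : Set (Fin d → ℤ) :=
  {x | |∑ i, n i * (x i : ℝ) - c| ≤ R}

/-- `h` is arbitrarily small off finitely many slabs -/
def IsThin {d : ℕ} (h : (Fin d → ℤ) → ℂ) : Prop :=
  ∀ ε : ℝ, 0 < ε → ∃ (m : ℕ) (n : Fin m → Fin d → ℝ) (c R : Fin m → ℝ), (∀ j, n j ≠ 0) ∧
    ∀ x, (∀ j, x ∉ Slab (n j) (c j) (R j)) → ‖h x‖ ≤ ε

/-- bounded, and asymptotically translation invariant off slabs -/
structure IsDirectional {d : ℕ} (F : (Fin d → ℤ) → ℂ) : Prop where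
  bounded : ∃ C : ℝ, ∀ x, ‖F x‖ ≤ C
  slow : ∀ a, IsThin fun x => F (x + a) - F x

/-- the signed permutation of the coordinates given by `σ` and the signs `ε` -/
def signedPerm {d : ℕ} (σ : Equiv.Perm (Fin d)) (ε : Fin d → ℤˣ) (x : Fin d → ℤ) : Fin d → ℤ :=
  fun i => (ε i : ℤ) * x (σ i)

/-- the average of `F` over the `2^d d!` signed permutations is `c`, up to a thin function -/
def HasIsotropicMean {d : ℕ} (F : (Fin d → ℤ) → ℂ) (c : ℂ) : Prop :=
  IsThin fun x => ((2 ^ d * d.factorial : ℕ) : ℂ)⁻¹ *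
    (∑ σ : Equiv.Perm (Fin d), ∑ ε : Fin d → ℤˣ, F (signedPerm σ ε x)) - c

/-- `w` is a finitely supported probability on `{n, n + 1, ...}` -/
structure IsTailWeight (n : ℕ) (w : ℕ →₀ ℝ) : Prop where
  nonneg : ∀ k, 0 ≤ w k
  tail : ∀ k, k < n → w k = 0
  sum : ∑ k ∈ w.support, w k = 1

/-- the time averages of `F` over `[0, T_k]`, averaged over `k` with the weights `w n`, converge to
`y` in norm when applied to `u` (uniformly tested against `v`, `‖v‖ ≤ 1`) -/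
def AveragesTo {d : ℕ} (U : ℝ → L2 d → L2 d) (F : (Fin d → ℤ) → ℂ) (T : ℕ → ℝ)
    (w : ℕ → (ℕ →₀ ℝ)) (u y : L2 d) : Prop :=
  ∀ ε : ℝ, 0 < ε → ∀ᶠ n in atTop, ∀ v : L2 d,
    ‖∑ k ∈ (w n).support, (w n k : ℂ) * timeAverage U F v u (T k) - ⟪v, y⟫_ℂ‖ ≤ ε * ‖v‖

open Pool.Agent.H5R2 Pool.Agent.Y662.ERG Pool.Agent.H39.AC Pool.Agent.H39.EQ

theorem sol_of_prop {d : ℕ} {ω : (Fin d → ℤ) → ℝ} {U : ℝ → L2 d → L2 d}
    (hU : IsPropagator ω U) (u : L2 d) :
    NB.IsSol (-1) (fun x => 2 * d + ω x) (fun t => U t u) (fun _ => 0) := by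
  refine ⟨fun T => ⟨‖u‖, fun t _ => (hU.norm t u).le⟩, fun t x => ?_⟩
  have h := hU.schrodinger u t x
  have e := NB.FIN.hop_eq ω (fun k => (U t u) k) x
  have e2 : -Complex.I * (NB.hopf (-1) (fun y => (U t u) y) x +
      (((fun x => 2 * d + ω x) x : ℝ) : ℂ) * (U t u) x) + ((0 : L2 d) : (Fin d → ℤ) → ℂ) x =
      -Complex.I * H ω (fun k => (U t u) k) x := by
    have e3 : H ω (fun k => (U t u) k) x = -(∑ i : Fin d,
        (((U t u) (x + Pi.single i 1) - (U t u) x) + ((U t u) (x - Pi.single i 1) - (U t u) x))) +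
        (ω x : ℂ) * (U t u) x := rfl
    rw [e3, ← e]
    simp
  rw [e2]
  exact h

theorem prop_of_grp {d : ℕ} {ω : (Fin d → ℤ) → ℝ} {W : NB.UG (NB.L2 (NB.Site d))}
    (hW : NB.IsGrp (-1) (fun x => 2 * d + ω x) W) : IsPropagator ω (fun t u => W.U t u) := by
  refine ⟨W.zero', W.norm', fun u t x => ?_⟩
  have h := (hW u).2 t x
  have e := NB.FIN.hop_eq ω (fun k => (W.U t u) k) x
  have e3 : H ω (fun k => (W.U t u) k) x = -(∑ i : Fin d,
        (((W.U t u) (x + Pi.single i 1) - (W.U t u) x) +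
          ((W.U t u) (x - Pi.single i 1) - (W.U t u) x))) + (ω x : ℂ) * (W.U t u) x := rfl
  rw [e3, ← e]
  simpa using h

theorem prop_eq {d : ℕ} {ω : (Fin d → ℤ) → ℝ} {W : NB.UG (NB.L2 (NB.Site d))}
    (hW : NB.IsGrp (-1) (fun x => 2 * d + ω x) W) {U : ℝ → L2 d → L2 d}
    (hU : IsPropagator ω U) (t : ℝ) (u : L2 d) : U t u = W.U t u := by
  have h := NB.ALL.a_UN d (-1) _ W hW (fun t => U t u) (fun _ => 0)
    continuous_const (sol_of_prop hU u) t
  simpa [hU.zero u] using h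

theorem spec_eq {d : ℕ} {K : ℝ} {ω : (Fin d → ℤ) → ℝ} (hω : ∀ x, |ω x| ≤ K)
    {W : NB.UG (NB.L2 (NB.Site d))} (hW : NB.IsGrp (-1) (fun x => 2 * d + ω x) W)
    {U : ℝ → L2 d → L2 d} (hU : IsPropagator ω U) {u : L2 d} {m : Measure ℝ}
    (hm : IsSpectral U u m) :
    m = Pool.Agent.TH980.IM.spm (Pool.Agent.TH980.IM.HV_sa K ω) u := by
  have hfin := hm.1
  refine spm_unique _ u m fun t => ?_
  rw [← hm.2 t, prop_eq hW hU, grp_Ex hω hW]

theorem thin_iff {d : ℕ} {h : (Fin d → ℤ) → ℂ} : IsThin h ↔ Thin h := by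
  constructor
  · intro H ε hε
    obtain ⟨m, n, c, R, h1, h2⟩ := H ε hε
    refine ⟨List.ofFn fun j => (n j, c j, R j), fun p hp => ?_, fun x hx => h2 x fun j => ?_⟩
    · obtain ⟨j, rfl⟩ := (List.mem_ofFn' _ _).1 hp
      exact h1 j
    · exact hx (n j, c j, R j) ((List.mem_ofFn' _ _).2 ⟨j, rfl⟩)
  · intro H ε hε
    obtain ⟨L, h1, h2⟩ := H ε hε
    refine ⟨L.length, fun j => (L.get j).1, fun j => (L.get j).2.1, fun j => (L.get j).2.2,
      fun j => h1 _ (List.get_mem _ _), fun x hx => h2 x fun p hp => ?_⟩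
    obtain ⟨j, rfl⟩ := List.get_of_mem hp
    exact hx j

theorem inner_fm {d : ℕ} (F : NB.Site d → ℂ) (hF : Bd F) (w f : L2 d) :
    ⟪w, fm F hF f⟫_ℂ = ∑' x, F x * (conj (w x) * f x) := by
  rw [lp.inner_eq_tsum]
  refine tsum_congr fun x => ?_
  rw [fm_apply, RCLike.inner_apply]
  ring

theorem timeAverage_eq {d : ℕ} {W : NB.UG (NB.L2 (NB.Site d))} {U : ℝ → L2 d → L2 d}
    (hU : ∀ t u, U t u = W.U t u) (F : NB.Site d → ℂ) (hF : Bd F) (w u : L2 d) (T : ℝ) :
    timeAverage U F w u T = ⟪w, AT W (fm F hF) T u⟫_ℂ := by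
  rw [AT_apply, inner_smul_right]
  unfold timeAverage
  congr 1
  have h4 := (innerSL ℂ w).intervalIntegral_comp_comm
    ((NB.BP.g_cont W (fm F hF) u).intervalIntegrable (μ := volume) 0 T)
  have e2 : ∀ s : ℝ, (innerSL ℂ w) (NB.BP.g W (fm F hF) u s) =
      ∑' x, F x * (conj ((U s w) x) * (U s u) x) := by
    intro s
    rw [hU, hU, ← inner_fm F hF]
    show ⟪w, W.U (-s) (fm F hF (W.U s u))⟫_ℂ = _
    have h5 := NB.STAT.inner_adj W (-s) w (fm F hF (W.U s u))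
    rw [neg_neg] at h5
    exact h5
  simp_rw [e2] at h4
  exact h4

theorem averagesTo_of {d : ℕ} {W : NB.UG (NB.L2 (NB.Site d))} {U : ℝ → L2 d → L2 d}
    (hU : ∀ t u, U t u = W.U t u) {F : NB.Site d → ℂ} (hF : Bd F) {T : ℕ → ℝ}
    {w : ℕ → (ℕ →₀ ℝ)} {u y : L2 d}
    (h : Tendsto (fun n => cmc (fun k => AT W (fm F hF) (T k) u) (w n)) atTop (𝓝 y)) :
    AveragesTo U F T w u y := by
  intro ε hε
  have h1 : Tendsto (fun n => ‖cmc (fun k => AT W (fm F hF) (T k) u) (w n) - y‖) atTop (𝓝 0) := by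
    have := (h.sub_const y).norm
    rwa [sub_self, norm_zero] at this
  filter_upwards [h1.eventually (gt_mem_nhds hε)] with n hn v
  have e : ∑ k ∈ (w n).support, (w n k : ℂ) * timeAverage U F v u (T k) - ⟪v, y⟫_ℂ =
      ⟪v, cmc (fun k => AT W (fm F hF) (T k) u) (w n) - y⟫_ℂ := by
    rw [inner_sub_right]
    congr 1
    unfold cmc
    rw [inner_sum]
    refine Finset.sum_congr rfl fun k _ => ?_
    rw [inner_smul_right, timeAverage_eq hU F hF]
  rw [e]
  refine (norm_inner_le_norm _ _).trans ?_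
  rw [mul_comm]
  exact mul_le_mul_of_nonneg_right hn.le (norm_nonneg _)

theorem iso_thin {d : ℕ} {F : NB.Site d → ℂ} {c : ℂ} (h : HasIsotropicMean F c) :
    Thin fun x => ∑ p : Equiv.Perm (Fin d) × (Fin d → ℤˣ),
      F (((actE p.1 p.2).symm).symm x) -
        (Fintype.card (Equiv.Perm (Fin d) × (Fin d → ℤˣ)) : ℂ) * c := by
  have h1 := (thin_iff.1 h).smul ((2 ^ d * d.factorial : ℕ) : ℂ)
  have hN : ((2 ^ d * d.factorial : ℕ) : ℂ) ≠ 0 := by
    exact_mod_cast (Nat.mul_pos (pow_pos (by norm_num) d) (Nat.factorial_pos d)).ne'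
  have e : (fun x => ∑ p : Equiv.Perm (Fin d) × (Fin d → ℤˣ),
      F (((actE p.1 p.2).symm).symm x) -
        (Fintype.card (Equiv.Perm (Fin d) × (Fin d → ℤˣ)) : ℂ) * c) =
      fun x => ((2 ^ d * d.factorial : ℕ) : ℂ) * (((2 ^ d * d.factorial : ℕ) : ℂ)⁻¹ *
    (∑ σ : Equiv.Perm (Fin d), ∑ ε : Fin d → ℤˣ, F (signedPerm σ ε x)) - c) := by
    funext x
    rw [mul_sub, ← mul_assoc, mul_inv_cancel₀ hN, one_mul, card_sp]
    congr 1
    rw [Fintype.sum_prod_type]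
    rfl
  rw [e]
  exact h1

/-- Let `d ≥ 1` and let `μ` be a law with bounded support which is not a point mass. For every
potential the unitary group exists and is unique, and:
(1) for every directional `F` and every sequence of times `T_k → ∞` there are finite convex
combinations of the tails and a bounded measurable `f` such that almost surely, for every absolutely
continuous state `u` with spectral measure `m`, the combinations of the time averages of `F` applied to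
`u` converge in norm to a vector `y` with `⟨U_t u, y⟩ = ∫ e^{itE} f(E) dm(E)` for all `t` and
`‖y‖² = ∫ |f|² dm` (that is, `y = f(Δ_ω)u`: the first condition says that `f(Δ_ω)u` is the projection of
`y` on the cyclic subspace of `u`, the second that `y` is in this subspace); if `F` has isotropic mean
`c` then `y = c u`;
(2) if `F` has isotropic mean `c` then, for all square integrable random states `φ`, `ψ` such that `ψ` is
almost surely absolutely continuous, the expectation of the time average of `⟨U_s φ, F U_s ψ⟩` over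
`[0, T]` tends to `c E⟨φ, ψ⟩` as `T → ∞`;
(3) the indicator functions of the half-spaces `{n·x > a}`, `n ≠ 0`, are directional with isotropic mean
`1/2`, and the one of the chamber `{0 < x_0 < ... < x_{d-1}}` is directional with isotropic mean
`1 / (2^d d!)`. -/
theorem result (d : ℕ) (hd : 1 ≤ d) (μ : Measure ℝ) [IsProbabilityMeasure μ]
    (hb : ∃ K : ℝ, ∀ᵐ r ∂μ, |r| ≤ K) (hμ : ∀ r : ℝ, μ {r} ≠ 1) :
    (∀ ω : Pot d, ∃! U : ℝ → L2 d → L2 d, IsPropagator ω U) ∧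
    (∀ U : Pot d → ℝ → L2 d → L2 d, (∀ ω, IsPropagator ω (U ω)) →
      ∀ F : (Fin d → ℤ) → ℂ, IsDirectional F →
      (∀ T : ℕ → ℝ, Tendsto T atTop atTop → ∃ (w : ℕ → (ℕ →₀ ℝ)) (f : ℝ → ℂ),
        (∀ n, IsTailWeight n (w n)) ∧ Measurable f ∧ (∃ R : ℝ, ∀ E, ‖f E‖ ≤ R) ∧
        (∀ᵐ ω ∂(iid d μ), ∀ u m, IsSpectral (U ω) u m → m ≪ volume →
          ∃ y : L2 d, AveragesTo (U ω) F T w u y ∧
            (∀ t : ℝ, ⟪U ω t u, y⟫_ℂ = ∫ E : ℝ, Complex.exp (Complex.I * t * E) * f E ∂m) ∧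
            ‖y‖ ^ 2 = ∫ E, ‖f E‖ ^ 2 ∂m) ∧
        ∀ c : ℂ, HasIsotropicMean F c →
          ∀ᵐ ω ∂(iid d μ), ∀ u, IsAC (U ω) u → AveragesTo (U ω) F T w u (c • u)) ∧
      ∀ c : ℂ, HasIsotropicMean F c → ∀ φ ψ : Pot d → L2 d,
        MemLp φ 2 (iid d μ) → MemLp ψ 2 (iid d μ) → (∀ᵐ ω ∂(iid d μ), IsAC (U ω) (ψ ω)) →
          Tendsto (fun T : ℝ => ∫ ω, timeAverage (U ω) F (φ ω) (ψ ω) T ∂(iid d μ)) atTop
            (𝓝 (c * ∫ ω, ⟪φ ω, ψ ω⟫_ℂ ∂(iid d μ)))) ∧
    (∀ (n : Fin d → ℝ) (a : ℝ), n ≠ 0 →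
      IsDirectional (Set.indicator {x : Fin d → ℤ | a < ∑ i, n i * (x i : ℝ)} fun _ => (1 : ℂ)) ∧
      HasIsotropicMean (Set.indicator {x : Fin d → ℤ | a < ∑ i, n i * (x i : ℝ)}
        fun _ => (1 : ℂ)) (1 / 2)) ∧
    IsDirectional (Set.indicator {x : Fin d → ℤ | (∀ i, 0 < x i) ∧ StrictMono x}
      fun _ => (1 : ℂ)) ∧
    HasIsotropicMean (Set.indicator {x : Fin d → ℤ | (∀ i, 0 < x i) ∧ StrictMono x}
      fun _ => (1 : ℂ)) (1 / (2 ^ d * d.factorial)) := by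
  obtain ⟨K, hK⟩ := hb
  have hN : ((2 ^ d * d.factorial : ℕ) : ℂ) ≠ 0 := by
    exact_mod_cast (Nat.mul_pos (pow_pos (by norm_num) d) (Nat.factorial_pos d)).ne'
  refine ⟨fun ω => ?_, fun U hU F hF => ?_, fun n a hn => ⟨⟨⟨1, ind_bd _⟩, fun b => ?_⟩, ?_⟩,
    ⟨⟨1, ind_bd _⟩, fun b => ?_⟩, ?_⟩
  · obtain ⟨W, hW⟩ := NB.ALL.a_EX d (-1) (fun x => 2 * d + ω x)
    refine ⟨fun t u => W.U t u, prop_of_grp hW, fun U hU => ?_⟩
    funext t u
    exact prop_eq hW hU t u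
  · choose ev hev using fun ω : NB.Site d → ℝ => NB.ALL.a_EX d (-1) (fun x => 2 * d + ω x)
    have hUe : ∀ ω t u, U ω t u = (ev ω).U t u := fun ω t u => prop_eq (hev ω) (hU ω) t u
    have hbd : ∀ᵐ ω ∂(NB.PP d μ), ∀ x, |ω x| ≤ K := by
      rw [ae_all_iff]
      intro x
      exact (measurePreserving_eval_infinitePi
        (fun _ : Fin d → ℤ => μ) x).quasiMeasurePreserving.ae hK
    have hFb : Bd F := hF.bounded
    have hFs : ∀ a : NB.Site d, Thin fun x => F (x + a) - F x := fun a => thin_iff.1 (hF.slow a)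
    refine ⟨fun T hT => ?_, fun c hc φ ψ hφ hψ hac => ?_⟩
    · obtain ⟨w, f, hw, hf1, hf2, hall0⟩ := thmA hd hK hμ hev hFb hFs hT
      have hall := hall0.mono fun ω h =>
        (⟨h.1, h.2.choose, h.2.choose_spec.1, h.2.choose_spec.2.1, h.2.choose_spec.2.2.2⟩ :
          (∀ x, |ω x| ≤ K) ∧ ∃ B : L2 d →L[ℂ] L2 d,
            (∀ x, Tendsto (fun n => cmc (fun k => AT (ev ω) (fm F hFb) (T k) x) (w n)) atTop
              (𝓝 (B x))) ∧
            (∀ ψ, Pool.Agent.TH980.IM.spm (Pool.Agent.TH980.IM.HV_sa K ω) ψ ≪ volume →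
              Pool.Agent.TH980.IM.spm (Pool.Agent.TH980.IM.HV_sa K ω) (B ψ) ≪ volume) ∧
            ∀ ψ, Pool.Agent.TH980.IM.spm (Pool.Agent.TH980.IM.HV_sa K ω) ψ ≪ volume → ∀ t : ℝ,
              ⟪Ex (Pool.Agent.TH980.IM.HV K ω) t ψ, B ψ⟫_ℂ =
              ∫ E : ℝ, Complex.exp (Complex.I * t * E) * f E
                ∂(Pool.Agent.TH980.IM.spm (Pool.Agent.TH980.IM.HV_sa K ω) ψ))
      refine ⟨w, f, fun n => ⟨(hw n).nonneg, (hw n).tail, (hw n).sum⟩, hf1, hf2, ?_, fun c hc => ?_⟩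
      · have key : ∀ᵐ ω ∂(NB.PP d μ), ∀ u m, IsSpectral (U ω) u m → m ≪ volume →
          ∃ y : L2 d, AveragesTo (U ω) F T w u y ∧
            (∀ t : ℝ, ⟪U ω t u, y⟫_ℂ = ∫ E : ℝ, Complex.exp (Complex.I * t * E) * f E ∂m) ∧
            ‖y‖ ^ 2 = ∫ E, ‖f E‖ ^ 2 ∂m := by
          filter_upwards [hall0] with ω ⟨h1, B, h2, _, h4, h3⟩ u m hm hmv
          have e := spec_eq h1 (hev ω) (hU ω) hm
          refine ⟨B u, averagesTo_of (hUe ω) hFb (h2 u), fun t => ?_, ?_⟩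
          · rw [hUe, grp_Ex h1 (hev ω), h3 u (e ▸ hmv) t, ← e]
          · rw [h4 u (e ▸ hmv), ← e]
        exact key
      · have hB := thmB hd hK hμ hev hFb hT hw hall
          (fun p : Equiv.Perm (Fin d) × (Fin d → ℤˣ) => (actE p.1 p.2).symm)
          (fun p => aut_actE p.1 p.2) (iso_thin hc)
        have key : ∀ᵐ ω ∂(NB.PP d μ), ∀ u, IsAC (U ω) u →
            AveragesTo (U ω) F T w u (c • u) := by
          filter_upwards [hB, hbd] with ω h1 h2 u ⟨m, hm, hmv⟩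
          have e := spec_eq h2 (hev ω) (hU ω) hm
          exact averagesTo_of (hUe ω) hFb (h1 u (e ▸ hmv))
        exact key
    · have hC := thmC (K := K) (ν := μ) hev hFb (c := c) (fun τ hτ => by
        obtain ⟨w, f, hw, hf1, hf2, hall0⟩ := thmA hd hK hμ hev hFb hFs hτ
        exact ⟨w, hw, thmB hd hK hμ hev hFb hτ hw (hall0.mono fun ω h =>
            ⟨h.1, h.2.choose, h.2.choose_spec.1, h.2.choose_spec.2.1, h.2.choose_spec.2.2.2⟩)
          (fun p : Equiv.Perm (Fin d) × (Fin d → ℤˣ) => (actE p.1 p.2).symm)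
          (fun p => aut_actE p.1 p.2) (iso_thin hc)⟩) hφ hψ (by
        have hac' : ∀ᵐ ω ∂(NB.PP d μ), IsAC (U ω) (ψ ω) := hac
        filter_upwards [hac', hbd] with ω ⟨m, hm, hmv⟩ h2
        have e := spec_eq h2 (hev ω) (hU ω) hm
        exact e ▸ hmv)
      refine hC.congr fun T => ?_
      refine integral_congr_ae (ae_of_all _ fun ω => ?_)
      exact (timeAverage_eq (hUe ω) F hFb _ _ _).symm
  · exact thin_iff.2 (hs_slow hn a b)
  · refine thin_iff.2 ?_
    have h1 := (hs_iso hn a).smul ((2 ^ d * d.factorial : ℕ) : ℂ)⁻¹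
    have e : (fun x : NB.Site d => ((2 ^ d * d.factorial : ℕ) : ℂ)⁻¹ *
        (∑ σ : Equiv.Perm (Fin d), ∑ ε : Fin d → ℤˣ, (hs n a (act σ ε x) - 1 / 2))) =
        fun x => ((2 ^ d * d.factorial : ℕ) : ℂ)⁻¹ *
      (∑ σ : Equiv.Perm (Fin d), ∑ ε : Fin d → ℤˣ,
        (Set.indicator {x : Fin d → ℤ | a < ∑ i, n i * (x i : ℝ)} fun _ => (1 : ℂ))
          (signedPerm σ ε x)) - 1 / 2 := by
      funext x
      have e1 : ∑ σ : Equiv.Perm (Fin d), ∑ ε : Fin d → ℤˣ, (hs n a (act σ ε x) - 1 / 2) =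
          (∑ σ : Equiv.Perm (Fin d), ∑ ε : Fin d → ℤˣ, hs n a (act σ ε x)) -
            ((2 ^ d * d.factorial : ℕ) : ℂ) * (1 / 2) := by
        simp_rw [Finset.sum_sub_distrib]
        congr 1
        simp only [Finset.sum_const, Finset.card_univ, Fintype.card_perm, Fintype.card_fin,
          Fintype.card_fun, Fintype.card_units_int, nsmul_eq_mul]
        push_cast
        ring
      rw [e1, mul_sub, ← mul_assoc, inv_mul_cancel₀ hN, one_mul]
      rfl
    rw [e] at h1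
    exact h1
  · exact thin_iff.2 (ch_slow b)
  · refine thin_iff.2 ?_
    have h1 := (ch_iso (d := d)).smul ((2 ^ d * d.factorial : ℕ) : ℂ)⁻¹
    have e : (fun x : NB.Site d => ((2 ^ d * d.factorial : ℕ) : ℂ)⁻¹ *
        ((∑ σ : Equiv.Perm (Fin d), ∑ ε : Fin d → ℤˣ, ch (act σ ε x)) - 1)) =
        fun x => ((2 ^ d * d.factorial : ℕ) : ℂ)⁻¹ *
      (∑ σ : Equiv.Perm (Fin d), ∑ ε : Fin d → ℤˣ,
        (Set.indicator {x : Fin d → ℤ | (∀ i, 0 < x i) ∧ StrictMono x} fun _ => (1 : ℂ))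
          (signedPerm σ ε x)) - 1 / (2 ^ d * d.factorial) := by
      funext x
      rw [mul_sub, mul_one, one_div]
      congr 1
      push_cast
      rfl
    rw [e] at h1
    exact h1

end Pool.Agent.Results.MP_d0f69c_mp.DirectionsEquidistribute
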