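import Pool.Agent.H39.R1.Fin

/-!
# Absolutely continuous spectrum near the band edges is doubly exponentially small

The model of the problem, `Δ_ω = -Δ + ω` on `ℓ²(ℤ^d)` with independent fair signs `ω_j = ±1`, has
the spectrum `[-1, 4 d + 1]`. In every dimension `d ≥ 2` the part of the windows `(-1, -1 + η)` and
`(4 d + 1 - η, 4 d + 1)` which can carry absolutely continuous spectrum has Lebesgue measure at most
`exp(-exp(c η^{-d/2}))`, with the exponent `d / 2` of the Lifshitz tails.

Proof. At the length `ℓ = C η^{-1/2}` all cubes of side `ℓ` inside a cube of size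
`L₀ = exp(c ℓ^d)` contain a positive fraction of sites where the potential is at its far value, with
probability close to one; by a Poincaré inequality the energies in the window are then at distance
at least `η` from the spectrum in the cube, and solutions decay by `exp(-c η L₀)`. A multiscale
analysis at fixed energy with resonance widths `exp(-(3/2)^k a₀)` at the scales `10^k L₀`,
`a₀ ≥ L₀^{1/2}`, excludes only energies of total measure `exp(-a₀ / 2)`.
-/

set_option autoImplicit false

open MeasureTheory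

namespace Pool.Agent.Results.MP_d0f69c_mp.EdgeDoubleExponential

/-- The Hilbert space `ℓ²(ℤᵈ)`. -/
def L2 (d : ℕ) : Type := lp (fun _ : Fin d → ℤ => ℂ) 2

/-- The `ℓ²` norm. -/
noncomputable instance instNorm (d : ℕ) : NormedAddCommGroup (L2 d) :=
  @lp.normedAddCommGroup (Fin d → ℤ) (fun _ => ℂ) 2 _ _

/-- The `ℓ²` inner product. -/
noncomputable instance instInner (d : ℕ) : InnerProductSpace ℂ (L2 d) :=
  @lp.instInnerProductSpace (Fin d → ℤ) ℂ _ (fun _ => ℂ) _ _

/-- The underlying function of a vector of `ℓ²(ℤᵈ)`. -/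
def coord {d : ℕ} (u : L2 d) : (Fin d → ℤ) → ℂ := (show lp (fun _ : Fin d → ℤ => ℂ) 2 from u)

/-- Bounded linear operators on a complex inner product space. -/
abbrev Op (E : Type) [NormedAddCommGroup E] [InnerProductSpace ℂ E] : Type := E →L[ℂ] E

/-- `-(discrete Laplacian) + ω` on functions (`true` codes `+1`, `false` codes `-1`). -/
noncomputable def act {d : ℕ} (ω : (Fin d → ℤ) → Bool) (u : (Fin d → ℤ) → ℂ)
    (j : Fin d → ℤ) : ℂ :=
  -(∑ i : Fin d, ((u (j + Pi.single i 1) - u j) + (u (j - Pi.single i 1) - u j)))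
    + (if ω j then (1 : ℂ) else -1) * u j

/-- The bounded operator `H` on `ℓ²(ℤᵈ)` acts as `-(discrete Laplacian) + ω`. -/
def IsAnderson {d : ℕ} (ω : (Fin d → ℤ) → Bool) (H : Op (L2 d)) : Prop :=
  ∀ u : L2 d, coord (H u) = act ω (coord u)

/-- `(H - z)⁻¹` -/
noncomputable def res {E : Type} [NormedAddCommGroup E] [InnerProductSpace ℂ E] (H : Op E) (z : ℂ) :
    Op E :=
  Ring.inverse (H - z • (1 : Op E))

/-- `μ` is the spectral measure of `ψ`: a finite measure with Borel transform
`⟨ψ, (H - z)⁻¹ ψ⟩` off the real line. -/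
def IsSpectralMeasure {E : Type} [NormedAddCommGroup E] [InnerProductSpace ℂ E]
    (H : Op E) (ψ : E) (μ : Measure ℝ) : Prop :=
  IsFiniteMeasure μ ∧ ∀ z : ℂ, z.im ≠ 0 →
    ∫ x, ((x : ℂ) - z)⁻¹ ∂μ = inner ℂ ψ (res H z ψ)

/-- The law of a fair `±1` potential on `ℤᵈ`. -/
noncomputable def coin (d : ℕ) : Measure ((Fin d → ℤ) → Bool) :=
  Measure.infinitePi (fun _ => (PMF.uniformOfFintype Bool).toMeasure)

/-- For every dimension `d ≥ 2` there are a (deterministic) measurable set `S` of energies and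
constants `c, η₀ > 0` such that for all `0 < η < η₀` the set `S` fills the windows of width `η` at
both band edges `-1` and `4 d + 1` up to Lebesgue measure `exp(-exp(c η^{-d/2}))`, and for almost
every fair `±1` potential the Bernoulli Anderson operator has no absolutely continuous spectrum in
`S`: the restriction to `S` of every spectral measure is singular. -/
theorem result (d : ℕ) (hd : 2 ≤ d) :
    ∃ S : Set ℝ, MeasurableSet S ∧
      (∃ c η₀ : ℝ, 0 < c ∧ 0 < η₀ ∧ ∀ η : ℝ, 0 < η → η < η₀ →
        volume (Set.Ioo (-1 : ℝ) (-1 + η) \ S) ≤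
          ENNReal.ofReal (Real.exp (-Real.exp (c * η ^ (-(d : ℝ) / 2)))) ∧
        volume (Set.Ioo (4 * (d : ℝ) + 1 - η) (4 * (d : ℝ) + 1) \ S) ≤
          ENNReal.ofReal (Real.exp (-Real.exp (c * η ^ (-(d : ℝ) / 2))))) ∧
      ∀ᵐ ω ∂(coin d), ∀ H : Op (L2 d), IsAnderson ω H →
        ∀ (ψ : L2 d) (μ : Measure ℝ), IsSpectralMeasure H ψ μ → (μ.restrict S) ⟂ₘ volume := by
  obtain ⟨η₀, h1, h2⟩ := H39.R1.small_compl hd
  refine ⟨H39.R1.SS d, H39.R1.measurableSet_SS,
    ⟨H39.R1.c2 d, η₀, H39.R1.c2_pos (by omega), h1, h2⟩, ?_⟩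
  have h := H39.R1.main hd
  filter_upwards [h] with ω hω H hH ψ μ hμ
  exact hω H (fun u j => congrFun (hH u) j) ψ μ hμ.1 hμ.2

end Pool.Agent.Results.MP_d0f69c_mp.EdgeDoubleExponential
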