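import Pool.Agent.H39.WM.C6

/-!
# Absolutely continuous states of the Anderson model are weakly mixing

`Δ_ω = -Δ + ω` on `ℤ^d`, `ω_j` iid with any law of bounded support which is not a point mass, for
instance `P(ω_j = ±1) = 1/2`. Let `A_ω` be any bounded operators which depend measurably on `ω` and
are almost surely covariant under translations (the velocity operators, multiplication by the
potential, Fermi projections of other covariant Hamiltonians, ...), and let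
`A_ω(s) = e^{isΔ_ω} A_ω e^{-isΔ_ω}`. There is a deterministic bounded Borel function `f` such that for
all square integrable random states `φ`, `ψ`, with `ψ` almost surely in the absolutely continuous
subspace of `Δ_ω`,
`(1/T) ∫_0^T |E ⟨φ, A(s) ψ⟩ - E ⟨φ, f(Δ) ψ⟩|² ds → 0`.
So in the absolutely continuous subspace the flow on the random observables, which is known to be
ergodic (the averages of `A(s)` converge to `f(Δ)`), is weakly mixing: the correlations
`E ⟨φ, A(s) ψ⟩` themselves converge, outside a set of times of density zero. In particular there are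
no resonances: a random operator `X` with `[Δ_ω, X_ω] = l X_ω`, `l ≠ 0`, which would translate the
energy of the states by a fixed amount, vanishes on the absolutely continuous subspace.
-/

set_option autoImplicit false

open MeasureTheory Filter Topology
open scoped BigOperators ENNReal NNReal InnerProductSpace

namespace Pool.Agent.Results.MP_d0f69c_mp.QuantumWeakMixing

/-- `ℓ²(ℤ^d)` -/
abbrev L2 (d : ℕ) : Type := lp (fun _ : Fin d → ℤ => ℂ) 2

/-- potentials on `ℤ^d` -/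
abbrev Pot (d : ℕ) : Type := (Fin d → ℤ) → ℝ

/-- the operator of the problem, `(Δ_ω u)(j) = -∑_{|n|=1} (u(j+n) - u(j)) + ω_j u(j)` (the unit
vectors `n` are `± e_i`) -/
noncomputable def H {d : ℕ} (ω : Pot d) (u : (Fin d → ℤ) → ℂ) (j : Fin d → ℤ) : ℂ :=
  -(∑ i : Fin d, ((u (j + Pi.single i 1) - u j) + (u (j - Pi.single i 1) - u j))) + (ω j : ℂ) * u j

/-- `U t = e^{-itΔ_ω}`: norm preserving maps of `ℓ²(ℤ^d)` with `U 0 = 1` and `i ∂_t (U_t u) = Δ_ω U_t u`
at every site -/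
structure IsPropagator {d : ℕ} (ω : Pot d) (U : ℝ → L2 d → L2 d) : Prop where
  zero : ∀ u, U 0 u = u
  norm : ∀ t u, ‖U t u‖ = ‖u‖
  schrodinger : ∀ u t j, HasDerivAt (fun s => (U s u) j)
    (-Complex.I * H ω (fun k => (U t u) k) j) t

/-- `m` is the spectral measure of `u`: the finite measure with
`⟨u, e^{-itΔ_ω} u⟩ = ∫ e^{-itE} dm(E)` -/
def IsSpectral {d : ℕ} (U : ℝ → L2 d → L2 d) (u : L2 d) (m : Measure ℝ) : Prop :=
  IsFiniteMeasure m ∧
    ∀ t : ℝ, ⟪u, U t u⟫_ℂ = ∫ E : ℝ, Complex.exp (-(Complex.I * t * E)) ∂m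

/-- `u` is in the absolutely continuous subspace -/
def IsAC {d : ℕ} (U : ℝ → L2 d → L2 d) (u : L2 d) : Prop :=
  ∃ m : Measure ℝ, IsSpectral U u m ∧ m ≪ volume

/-- `w = f(Δ_ω) u`: with the spectral measure `m` of `u`, `⟨e^{-itΔ_ω} u, w⟩ = ∫ e^{itE} f(E) dm(E)`
for all `t`, and `‖w‖² = ∫ |f|² dm` -/
def IsFunctionOf {d : ℕ} (U : ℝ → L2 d → L2 d) (f : ℝ → ℂ) (u w : L2 d) : Prop :=
  ∃ m : Measure ℝ, IsSpectral U u m ∧
    (∀ t : ℝ, ⟪U t u, w⟫_ℂ = ∫ E : ℝ, Complex.exp (Complex.I * t * E) * f E ∂m) ∧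
    ‖w‖ ^ 2 = ∫ E, ‖f E‖ ^ 2 ∂m

/-- bounded Borel function -/
def IsBoundedBorel (f : ℝ → ℂ) : Prop :=
  Measurable f ∧ ∃ R : ℝ, ∀ E, ‖f E‖ ≤ R

/-- the law of iid variables with law `μ` on `ℤ^d` -/
noncomputable def iid (d : ℕ) (μ : Measure ℝ) : Measure (Pot d) :=
  Measure.infinitePi fun _ => μ

/-- linear operators -/
def Linear {d : ℕ} (A : Pot d → L2 d → L2 d) : Prop :=
  ∀ (ω : Pot d) (c : ℂ) (u w : L2 d), A ω (c • u + w) = c • A ω u + A ω w

/-- bounded, uniformly in `ω` -/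
def Bounded {d : ℕ} (A : Pot d → L2 d → L2 d) : Prop :=
  ∃ M : ℝ, ∀ (ω : Pot d) (u : L2 d), ‖A ω u‖ ≤ M * ‖u‖

/-- `A_ω u` depends measurably on `ω` -/
def MeasurableField {d : ℕ} (A : Pot d → L2 d → L2 d) : Prop :=
  ∀ (u : L2 d) (j : Fin d → ℤ), Measurable fun ω => (A ω u) j

/-- covariant under all translations at `ω`: if `w = u(· + z)` then
`A_{ω(· + z)} w = (A_ω u)(· + z)` -/
def CovariantAt {d : ℕ} (A : Pot d → L2 d → L2 d) (ω : Pot d) : Prop :=
  ∀ (z : Fin d → ℤ) (u w : L2 d), (∀ j, w j = u (j + z)) →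
    ∀ j, (A (fun k => ω (k + z)) w) j = (A ω u) (j + z)

/-- `A` is a random operator: the linear operators `A_ω` on `ℓ²(ℤ^d)` are bounded uniformly in `ω`,
depend measurably on `ω`, and are almost surely covariant under all translations -/
structure IsRandomOperator {d : ℕ} (μ : Measure ℝ) (A : Pot d → L2 d → L2 d) : Prop where
  linear : Linear A
  bounded : Bounded A
  measurable : MeasurableField A
  covariant : ∀ᵐ ω ∂(iid d μ), CovariantAt A ω

/-- the square integrable random state `ψ` is almost surely absolutely continuous -/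
structure IsACState {d : ℕ} (μ : Measure ℝ) (U : Pot d → ℝ → L2 d → L2 d)
    (ψ : Pot d → L2 d) : Prop where
  sq : MemLp ψ 2 (iid d μ)
  ac : ∀ᵐ ω ∂(iid d μ), IsAC (U ω) (ψ ω)

/-- the correlation `E ⟨φ, A(s) ψ⟩` with the observable at time `s`, `A(s) = U_{-s} A U_s` -/
noncomputable def correlation {d : ℕ} (μ : Measure ℝ) (U : Pot d → ℝ → L2 d → L2 d)
    (A : Pot d → L2 d → L2 d) (φ ψ : Pot d → L2 d) (s : ℝ) : ℂ :=
  ∫ ω, ⟪φ ω, U ω (-s) (A ω (U ω s (ψ ω)))⟫_ℂ ∂(iid d μ)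

/-- `E ⟨φ, A(s) ψ⟩` tends to `E ⟨φ, χ⟩` in mean square over the times `s ∈ [0, T]`, `T → ∞` -/
def MixesTo {d : ℕ} (μ : Measure ℝ) (U : Pot d → ℝ → L2 d → L2 d)
    (A : Pot d → L2 d → L2 d) (φ ψ χ : Pot d → L2 d) : Prop :=
  Tendsto (fun T : ℝ => T⁻¹ * ∫ s in (0 : ℝ)..T,
    ‖correlation μ U A φ ψ s - ∫ ω, ⟪φ ω, χ ω⟫_ℂ ∂(iid d μ)‖ ^ 2) atTop (𝓝 0)

/-- `X_ω(t) = e^{ilt} X_ω`, that is, `[Δ_ω, X_ω] = l X_ω`: the random operator `X` translates the energy
by `l` -/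
def IsLadder {d : ℕ} (μ : Measure ℝ) (U : Pot d → ℝ → L2 d → L2 d) (l : ℝ)
    (X : Pot d → L2 d → L2 d) : Prop :=
  ∀ᵐ ω ∂(iid d μ), ∀ (t : ℝ) (u : L2 d),
    U ω (-t) (X ω (U ω t u)) = Complex.exp (Complex.I * l * t) • X ω u

open Pool.Agent.H5R2 Pool.Agent.Y662.ERG

theorem sol_of_prop {d : ℕ} {ω : (Fin d → ℤ) → ℝ} {U : ℝ → L2 d → L2 d}
    (hU : IsPropagator ω U) (u : L2 d) :
    NB.IsSol (-1) (fun x => 2 * d + ω x) (fun t => U t u) (fun _ => 0) := by
  refine ⟨fun T => ⟨‖u‖, fun t _ => (hU.norm t u).le⟩, fun t x => ?_⟩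
  have h := hU.schrodinger u t x
  have e := NB.FIN.hop_eq ω (fun k => (U t u) k) x
  have e2 : -Complex.I * (NB.hopf (-1) (fun y => (U t u) y) x +
      (((fun x => 2 * d + ω x) x : ℝ) : ℂ) * (U t u) x) + ((0 : L2 d) : (Fin d → ℤ) → ℂ) x =
      -Complex.I * H ω (fun k => (U t u) k) x := by
    have e3 : H ω (fun k => (U t u) k) x = -(∑ i : Fin d,
        (((U t u) (x + Pi.single i 1) - (U t u) x) + ((U t u) (x - Pi.single i 1) - (U t u) x))) +
        (ω x : ℂ) * (U t u) x := rfl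
    rw [e3, ← e]
    simp
  rw [e2]
  exact h

theorem prop_of_grp {d : ℕ} {ω : (Fin d → ℤ) → ℝ} {W : NB.UG (NB.L2 (NB.Site d))}
    (hW : NB.IsGrp (-1) (fun x => 2 * d + ω x) W) : IsPropagator ω (fun t u => W.U t u) := by
  refine ⟨W.zero', W.norm', fun u t x => ?_⟩
  have h := (hW u).2 t x
  have e := NB.FIN.hop_eq ω (fun k => (W.U t u) k) x
  have e3 : H ω (fun k => (W.U t u) k) x = -(∑ i : Fin d,
        (((W.U t u) (x + Pi.single i 1) - (W.U t u) x) +
          ((W.U t u) (x - Pi.single i 1) - (W.U t u) x))) + (ω x : ℂ) * (W.U t u) x := rfl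
  rw [e3, ← e]
  simpa using h

theorem prop_eq {d : ℕ} {ω : (Fin d → ℤ) → ℝ} {W : NB.UG (NB.L2 (NB.Site d))}
    (hW : NB.IsGrp (-1) (fun x => 2 * d + ω x) W) {U : ℝ → L2 d → L2 d}
    (hU : IsPropagator ω U) (t : ℝ) (u : L2 d) : U t u = W.U t u := by
  have h := NB.ALL.a_UN d (-1) _ W hW (fun t => U t u) (fun _ => 0)
    continuous_const (sol_of_prop hU u) t
  simpa [hU.zero u] using h

/-- a random operator agrees almost surely with a covariant field -/
theorem field_of {d : ℕ} {μ : Measure ℝ} [IsProbabilityMeasure μ] {A : Pot d → L2 d → L2 d}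
    (hA : IsRandomOperator μ A) :
    ∃ (W : Pot d → L2 d →L[ℂ] L2 d) (M : ℝ), (∀ᵐ ω ∂(iid d μ), ∀ u, W ω u = A ω u) ∧
      (∀ V ψ, ‖W V ψ‖ ≤ M * ‖ψ‖) ∧
      (∀ (u : L2 d) (x : Fin d → ℤ), Measurable fun V => (W V u) x) ∧
      ∀ (z : NB.Site d) (S : NB.L2 (NB.Site d) →L[ℂ] NB.L2 (NB.Site d)), NB.IsShift z S → ∀ V ψ,
        W (fun y => V (y + z)) (S ψ) = S (W V ψ) := by
  obtain ⟨M, hM⟩ := hA.bounded
  have hM0 : 0 ≤ M := by
    have h1 := hM 0 (NB.dl 0)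
    rw [NB.STAT.norm_dl, mul_one] at h1
    exact (norm_nonneg _).trans h1
  have hadd : ∀ ω u w, A ω (u + w) = A ω u + A ω w := by
    intro ω u w
    have h := hA.linear ω 1 u w
    rwa [one_smul, one_smul] at h
  have hz : ∀ ω, A ω 0 = 0 := by
    intro ω
    have h := hadd ω 0 0
    rw [add_zero] at h
    exact left_eq_add.1 h
  have hsmul : ∀ ω (c : ℂ) u, A ω (c • u) = c • A ω u := by
    intro ω c u
    have h := hA.linear ω c u 0
    rwa [add_zero, hz, add_zero] at h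
  obtain ⟨W, hWA⟩ : ∃ W : Pot d → L2 d →L[ℂ] L2 d, ∀ ω u, W ω u = A ω u :=
    ⟨fun ω => LinearMap.mkContinuousOfExistsBound
      { toFun := A ω, map_add' := hadd ω, map_smul' := hsmul ω } ⟨M, hM ω⟩, fun ω u => rfl⟩
  have hcv : ∀ᵐ V ∂(NB.PP d μ), ∀ (z : NB.Site d)
      (S : NB.L2 (NB.Site d) →L[ℂ] NB.L2 (NB.Site d)), NB.IsShift z S → ∀ ψ,
        W (fun y => V (y + z)) (S ψ) = S (W V ψ) := by
    have h1 : ∀ᵐ ω ∂(NB.PP d μ), CovariantAt A ω := hA.covariant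
    filter_upwards [h1] with ω hω z S hS ψ
    ext j
    rw [hWA, hWA, hω z ψ (S ψ) (fun k => hS ψ k) j, hS]
  have hmW : ∀ (u : L2 d) (j : Fin d → ℤ), Measurable fun ω => (W ω u) j := by
    intro u j
    simp only [hWA]
    exact hA.measurable u j
  obtain ⟨W', hW1, hW2, hW3, hW4⟩ := Pool.Agent.R988.NQ.fix_cov hmW hcv
  refine ⟨W', M, ?_, fun V ψ => ?_, hW2, hW3⟩
  · have h2 : ∀ᵐ ω ∂(NB.PP d μ), ∀ u, W' ω u = A ω u := by
      filter_upwards [hW4] with ω hω u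
      rw [hω, hWA]
    exact h2
  · rcases hW1 V with h | h
    · rw [h, hWA]
      exact hM V ψ
    · rw [h, zero_apply, norm_zero]
      positivity

/-- Let `d ≥ 1` and let `μ` be a law with bounded support which is not a point mass. For every
potential the unitary group exists and is unique, and:
(1) for every random operator `A` there is a bounded Borel function `f`, not depending on `ω`, such
that for every square integrable random state `ψ` which is almost surely absolutely continuous, with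
`χ = f(Δ_ω) ψ`, the correlations `E ⟨φ, A(s) ψ⟩` tend to `E ⟨φ, χ⟩` in mean square over `s ∈ [0, T]`,
`T → ∞`, for all square integrable `φ`;
(2) if `l ≠ 0` and the random operator `X` translates the energy by `l`, `X(t) = e^{ilt} X`, then
almost surely `X_ω u = 0` for all `u` in the absolutely continuous subspace. -/
theorem result (d : ℕ) (hd : 1 ≤ d) (μ : Measure ℝ) [IsProbabilityMeasure μ]
    (hb : ∃ K : ℝ, ∀ᵐ r ∂μ, |r| ≤ K) (hμ : ∀ r : ℝ, μ {r} ≠ 1) :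
    (∀ ω : Pot d, ∃! U : ℝ → L2 d → L2 d, IsPropagator ω U) ∧
    ∀ U : Pot d → ℝ → L2 d → L2 d, (∀ ω, IsPropagator ω (U ω)) →
      (∀ A : Pot d → L2 d → L2 d, IsRandomOperator μ A → ∃ f : ℝ → ℂ, IsBoundedBorel f ∧
        ∀ ψ : Pot d → L2 d, IsACState μ U ψ → ∃ χ : Pot d → L2 d, MemLp χ 2 (iid d μ) ∧
          (∀ᵐ ω ∂(iid d μ), IsFunctionOf (U ω) f (ψ ω) (χ ω)) ∧
          ∀ φ : Pot d → L2 d, MemLp φ 2 (iid d μ) → MixesTo μ U A φ ψ χ) ∧
      ∀ (l : ℝ) (X : Pot d → L2 d → L2 d), l ≠ 0 → IsRandomOperator μ X → IsLadder μ U l X →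
        ∀ᵐ ω ∂(iid d μ), ∀ u : L2 d, IsAC (U ω) u → X ω u = 0 := by
  obtain ⟨K, hK⟩ := hb
  refine ⟨fun ω => ?_, fun U hU => ?_⟩
  · obtain ⟨W, hW⟩ := NB.ALL.a_EX d (-1) (fun x => 2 * d + ω x)
    refine ⟨fun t u => W.U t u, prop_of_grp hW, fun U hU => ?_⟩
    funext t u
    exact prop_eq hW hU t u
  choose ev hev using fun ω : NB.Site d → ℝ => NB.ALL.a_EX d (-1) (fun x => 2 * d + ω x)
  have hUe : ∀ ω t u, U ω t u = (ev ω).U t u := fun ω t u => prop_eq (hev ω) (hU ω) t u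
  have hbd := bd_ae (d := d) hK
  have hac_iff : ∀ ω : (Fin d → ℤ) → ℝ, (∀ x, |ω x| ≤ K) → ∀ u : L2 d,
      IsAC (U ω) u ↔ Pool.Agent.TH980.IM.spm (Pool.Agent.TH980.IM.HV_sa K ω) u ≪ volume := by
    intro ω h1 u
    have hUx : ∀ t u, U ω t u = Ex (Pool.Agent.TH980.IM.HV K ω) t u := fun t u => by
      rw [hUe, grp_Ex h1 (hev ω)]
    constructor
    · rintro ⟨m, ⟨hm1, hm2⟩, hm3⟩
      have hmm : m = Pool.Agent.TH980.IM.spm (Pool.Agent.TH980.IM.HV_sa K ω) u :=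
        spm_unique _ u m fun t => by rw [← hUx, hm2 t]
      rw [← hmm]
      exact hm3
    · intro h
      refine ⟨_, ⟨inferInstance, fun t => ?_⟩, h⟩
      rw [hUx, Ex_spm]
  refine ⟨fun A hA => ?_, fun l X hl hX hlad => ?_⟩
  · obtain ⟨W, M, hWA, hWb, hWm, hWc⟩ := field_of hA
    obtain ⟨B, R, f, hf1, hf2, hB, hBf, hwm⟩ := Pool.Agent.H39.WM.main_wm hd hK hμ hev hWb hWm hWc
    refine ⟨f, ⟨hf1, hf2⟩, fun ψ hψ => ?_⟩
    have hψ2 : MemLp ψ 2 (NB.PP d μ) := hψ.sq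
    have hψa : ∀ᵐ ω ∂(NB.PP d μ), Pool.Agent.TH980.IM.spm (Pool.Agent.TH980.IM.HV_sa K ω) (ψ ω) ≪
        volume := by
      have h1 : ∀ᵐ ω ∂(NB.PP d μ), IsAC (U ω) (ψ ω) := hψ.ac
      filter_upwards [h1, hbd] with ω h2 h3
      exact (hac_iff ω h3 _).1 h2
    have hχ : MemLp (fun ω => B ω (ψ ω)) 2 (NB.PP d μ) :=
      hψ2.of_le_mul (Pool.Agent.R988.NQ.fld_aesm hB hψ2.1) (ae_of_all _ fun ω => hB.bd ω _)
    refine ⟨fun ω => B ω (ψ ω), hχ, ?_, fun φ hφ => ?_⟩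
    · have key : ∀ᵐ ω ∂(NB.PP d μ), IsFunctionOf (U ω) f (ψ ω) (B ω (ψ ω)) := by
        filter_upwards [hBf, hψa] with ω ⟨h1, h2, h3, h4⟩ h5
        refine ⟨Pool.Agent.TH980.IM.spm (Pool.Agent.TH980.IM.HV_sa K ω) (ψ ω),
          ⟨inferInstance, fun t => ?_⟩, fun t => ?_, ?_⟩
        · rw [hUe, grp_Ex h1 (hev ω), Ex_spm]
        · rw [hUe, grp_Ex h1 (hev ω)]
          exact h4 _ h5 t
        · have h6 := norm_of_ngl (Pool.Agent.TH980.IM.HV_sa K ω) h2 hf1 h5 (h3 (ψ ω))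
          obtain ⟨R', hR'⟩ := hf2
          have h7 : ∫⁻ E, ‖f E‖ₑ ^ 2 ∂(Pool.Agent.TH980.IM.spm (Pool.Agent.TH980.IM.HV_sa K ω)
              (ψ ω)) = ENNReal.ofReal (∫ E, ‖f E‖ ^ 2 ∂(Pool.Agent.TH980.IM.spm
                (Pool.Agent.TH980.IM.HV_sa K ω) (ψ ω))) := by
            rw [ofReal_integral_eq_lintegral_ofReal]
            · refine lintegral_congr fun E => ?_
              rw [← ofReal_norm, ← ENNReal.ofReal_pow (norm_nonneg _)]
            · refine Integrable.of_bound (hf1.norm.pow_const 2).aestronglyMeasurable (R' ^ 2)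
                (ae_of_all _ fun E => ?_)
              rw [norm_pow, norm_norm]
              exact pow_le_pow_left₀ (norm_nonneg _) (hR' E) 2
            · exact ae_of_all _ fun E => sq_nonneg _
          have h8 : ‖B ω (ψ ω)‖ₑ ^ 2 = ENNReal.ofReal (‖B ω (ψ ω)‖ ^ 2) := by
            rw [← ofReal_norm, ENNReal.ofReal_pow (norm_nonneg _)]
          rw [h8, h7] at h6
          exact (ENNReal.ofReal_eq_ofReal_iff (by positivity)
            (integral_nonneg fun E => sq_nonneg _)).1 h6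
      exact key
    · have hφ2 : MemLp φ 2 (NB.PP d μ) := hφ
      have h1 := hwm φ ψ hφ2 hψ2 hψa
      have hW : Pool.Agent.R988.NQ.Fld M W := (Pool.Agent.R988.NQ.flds hWb hWm hWc).1
      have i2 : Integrable (fun ω => ⟪φ ω, B ω (ψ ω)⟫_ℂ) (NB.PP d μ) :=
        (Pool.Agent.H39.WM.nn_int hφ2 hχ).mono' (hφ2.1.inner hχ.1)
          (ae_of_all _ fun ω => norm_inner_le_norm _ _)
      have e : ∀ s : ℝ, correlation μ U A φ ψ s - ∫ ω, ⟪φ ω, B ω (ψ ω)⟫_ℂ ∂(iid d μ) =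
          ∫ ω, ⟪φ ω, (ev ω).U (-s) (W ω ((ev ω).U s (ψ ω))) - B ω (ψ ω)⟫_ℂ ∂(NB.PP d μ) := by
        intro s
        have hfl := Pool.Agent.H39.WM.fld_fl hev hW s
        have m1 : AEStronglyMeasurable (fun ω => (ev ω).U (-s) (W ω ((ev ω).U s (ψ ω))))
            (NB.PP d μ) := Pool.Agent.R988.NQ.fld_aesm hfl hψ2.1
        have m2 : MemLp (fun ω => (ev ω).U (-s) (W ω ((ev ω).U s (ψ ω)))) 2 (NB.PP d μ) :=
          hψ2.of_le_mul m1 (ae_of_all _ fun ω => hfl.bd ω (ψ ω))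
        have i1 : Integrable (fun ω => ⟪φ ω, (ev ω).U (-s) (W ω ((ev ω).U s (ψ ω)))⟫_ℂ)
            (NB.PP d μ) :=
          (Pool.Agent.H39.WM.nn_int hφ2 m2).mono' (hφ2.1.inner m1)
            (ae_of_all _ fun ω => norm_inner_le_norm _ _)
        have e1 : correlation μ U A φ ψ s =
            ∫ ω, ⟪φ ω, (ev ω).U (-s) (W ω ((ev ω).U s (ψ ω)))⟫_ℂ ∂(NB.PP d μ) := by
          have hWA' : ∀ᵐ ω ∂(NB.PP d μ), ∀ u, W ω u = A ω u := hWA
          refine integral_congr_ae (μ := NB.PP d μ) ?_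
          filter_upwards [hWA'] with ω hω
          rw [hUe, hUe, hω]
        rw [e1]
        show _ - ∫ ω, ⟪φ ω, B ω (ψ ω)⟫_ℂ ∂(NB.PP d μ) = _
        rw [← integral_sub i1 i2]
        refine integral_congr_ae (ae_of_all _ fun ω => ?_)
        exact (inner_sub_right _ _ _).symm
      unfold MixesTo
      simp_rw [e, ← one_div]
      exact h1
  · obtain ⟨W, M, hWA, hWb, hWm, hWc⟩ := field_of hX
    have hWA' : ∀ᵐ ω ∂(NB.PP d μ), ∀ u, W ω u = X ω u := hWA
    have hlad' : ∀ᵐ ω ∂(NB.PP d μ), ∀ (t : ℝ) (u : L2 d),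
        U ω (-t) (X ω (U ω t u)) = Complex.exp (Complex.I * l * t) • X ω u := hlad
    have key := Pool.Agent.H39.WM.no_ladder hd hK hμ hev hWb hWm hWc hl (by
      filter_upwards [hWA', hlad'] with ω h1 h2 t x
      have h3 := h2 t x
      rw [hUe, hUe, ← h1, ← h1] at h3
      have h4 := congrArg (fun y => (ev ω).U t y) h3
      rw [← (ev ω).add' t (-t), add_neg_cancel, (ev ω).zero', map_smul] at h4
      rw [h4]
      congr 1
      unfold Pool.Agent.H39.WM.ph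
      congr 1
      push_cast
      ring)
    have h5 : ∀ᵐ ω ∂(NB.PP d μ), ∀ u : L2 d, IsAC (U ω) u → X ω u = 0 := by
      filter_upwards [key, hWA', hbd] with ω h1 h2 h3 u hu
      rw [← h2]
      exact h1 u ((hac_iff ω h3 u).1 hu)
    exact h5

end Pool.Agent.Results.MP_d0f69c_mp.QuantumWeakMixing
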