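import Pool.Agent.H39.AC.Tw9

/-!
# Absolutely continuous states of the Anderson model leave every slab

`Δ_ω = -Δ + ω` on `ℤ^d`, `ω_j` iid with any law of bounded support which is not a point mass, for
instance `P(ω_j = ±1) = 1/2`. Let `χ` be a unitary character of `ℤ^d` which is not constant, i.e.
`χ(x) = e^{iθ·x}` with `θ` not in `2πℤ^d`. Almost surely, for every state `u` in the absolutely
continuous subspace of `Δ_ω`, the time averages of `e^{isΔ_ω} χ e^{-isΔ_ω} u` tend to zero in norm: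
the time averaged position distribution of an absolutely continuous state has a characteristic
function which tends to zero at every nonzero frequency. Consequently such a state leaves every
slab `{x : |n·x - c| ≤ R}`, uniformly in `c`, for every direction `n ≠ 0` of `ℝ^d`.
-/

set_option autoImplicit false

open MeasureTheory Filter Topology
open scoped BigOperators ENNReal NNReal InnerProductSpace ComplexConjugate

namespace Pool.Agent.Results.MP_d0f69c_mp.SlabEscape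

/-- `ℓ²(ℤ^d)` -/
abbrev L2 (d : ℕ) : Type := lp (fun _ : Fin d → ℤ => ℂ) 2

/-- potentials on `ℤ^d` -/
abbrev Pot (d : ℕ) : Type := (Fin d → ℤ) → ℝ

/-- the operator of the problem, `(Δ_ω u)(j) = -∑_{|n|=1} (u(j+n) - u(j)) + ω_j u(j)` (the unit
vectors `n` are `± e_i`) -/
noncomputable def H {d : ℕ} (ω : Pot d) (u : (Fin d → ℤ) → ℂ) (j : Fin d → ℤ) : ℂ :=
  -(∑ i : Fin d, ((u (j + Pi.single i 1) - u j) + (u (j - Pi.single i 1) - u j))) + (ω j : ℂ) * u j

/-- `U t = e^{-itΔ_ω}`: norm preserving maps of `ℓ²(ℤ^d)` with `U 0 = 1` and `i ∂_t (U_t u) = Δ_ω U_t u`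
at every site -/
structure IsPropagator {d : ℕ} (ω : Pot d) (U : ℝ → L2 d → L2 d) : Prop where
  zero : ∀ u, U 0 u = u
  norm : ∀ t u, ‖U t u‖ = ‖u‖
  schrodinger : ∀ u t j, HasDerivAt (fun s => (U s u) j)
    (-Complex.I * H ω (fun k => (U t u) k) j) t

/-- `m` is the spectral measure of `u`: the finite measure with
`⟨u, e^{-itΔ_ω} u⟩ = ∫ e^{-itE} dm(E)` -/
def IsSpectral {d : ℕ} (U : ℝ → L2 d → L2 d) (u : L2 d) (m : Measure ℝ) : Prop :=
  IsFiniteMeasure m ∧
    ∀ t : ℝ, ⟪u, U t u⟫_ℂ = ∫ E : ℝ, Complex.exp (-(Complex.I * t * E)) ∂m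

/-- `u` is in the absolutely continuous subspace -/
def IsAC {d : ℕ} (U : ℝ → L2 d → L2 d) (u : L2 d) : Prop :=
  ∃ m : Measure ℝ, IsSpectral U u m ∧ m ≪ volume

/-- the law of iid variables with law `μ` on `ℤ^d` -/
noncomputable def iid (d : ℕ) (μ : Measure ℝ) : Measure (Pot d) :=
  Measure.infinitePi fun _ => μ

/-- a unitary character of `ℤ^d` other than the constant one -/
structure IsNontrivialCharacter {d : ℕ} (χ : (Fin d → ℤ) → ℂ) : Prop where
  mul : ∀ x y, χ (x + y) = χ x * χ y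
  norm : ∀ x, ‖χ x‖ = 1
  nontrivial : ∃ x, χ x ≠ 1

/-- the average over the times `s ∈ [0, T]` of `⟨U_s w, F U_s u⟩ = ∑_x F(x) conj((U_s w)(x)) (U_s u)(x)` -/
noncomputable def timeAverage {d : ℕ} (U : ℝ → L2 d → L2 d) (F : (Fin d → ℤ) → ℂ) (w u : L2 d)
    (T : ℝ) : ℂ :=
  (T : ℂ)⁻¹ * ∫ s in (0 : ℝ)..T, ∑' x, F x * (conj ((U s w) x) * (U s u) x)

/-- the average over the times `s ∈ [0, T]` of the probability `∑_{x ∈ A} |(U_s u)(x)|²` to be
in `A` -/
noncomputable def timeFraction {d : ℕ} (U : ℝ → L2 d → L2 d) (A : Set (Fin d → ℤ)) (u : L2 d)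
    (T : ℝ) : ℝ :=
  T⁻¹ * ∫ s in (0 : ℝ)..T, ∑' x, A.indicator (fun x => ‖(U s u) x‖ ^ 2) x

/-- the slab `{x : |n·x - c| ≤ R}` -/
def Slab {d : ℕ} (n : Fin d → ℝ) (c R : ℝ) : Set (Fin d → ℤ) :=
  {x | |∑ i, n i * (x i : ℝ) - c| ≤ R}

open Pool.Agent.H5R2 Pool.Agent.Y662.ERG Pool.Agent.H39.AC

theorem sol_of_prop {d : ℕ} {ω : (Fin d → ℤ) → ℝ} {U : ℝ → L2 d → L2 d}
    (hU : IsPropagator ω U) (u : L2 d) :
    NB.IsSol (-1) (fun x => 2 * d + ω x) (fun t => U t u) (fun _ => 0) := by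
  refine ⟨fun T => ⟨‖u‖, fun t _ => (hU.norm t u).le⟩, fun t x => ?_⟩
  have h := hU.schrodinger u t x
  have e := NB.FIN.hop_eq ω (fun k => (U t u) k) x
  have e2 : -Complex.I * (NB.hopf (-1) (fun y => (U t u) y) x +
      (((fun x => 2 * d + ω x) x : ℝ) : ℂ) * (U t u) x) + ((0 : L2 d) : (Fin d → ℤ) → ℂ) x =
      -Complex.I * H ω (fun k => (U t u) k) x := by
    have e3 : H ω (fun k => (U t u) k) x = -(∑ i : Fin d,
        (((U t u) (x + Pi.single i 1) - (U t u) x) + ((U t u) (x - Pi.single i 1) - (U t u) x))) +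
        (ω x : ℂ) * (U t u) x := rfl
    rw [e3, ← e]
    simp
  rw [e2]
  exact h

theorem prop_of_grp {d : ℕ} {ω : (Fin d → ℤ) → ℝ} {W : NB.UG (NB.L2 (NB.Site d))}
    (hW : NB.IsGrp (-1) (fun x => 2 * d + ω x) W) : IsPropagator ω (fun t u => W.U t u) := by
  refine ⟨W.zero', W.norm', fun u t x => ?_⟩
  have h := (hW u).2 t x
  have e := NB.FIN.hop_eq ω (fun k => (W.U t u) k) x
  have e3 : H ω (fun k => (W.U t u) k) x = -(∑ i : Fin d,
        (((W.U t u) (x + Pi.single i 1) - (W.U t u) x) +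
          ((W.U t u) (x - Pi.single i 1) - (W.U t u) x))) + (ω x : ℂ) * (W.U t u) x := rfl
  rw [e3, ← e]
  simpa using h

theorem prop_eq {d : ℕ} {ω : (Fin d → ℤ) → ℝ} {W : NB.UG (NB.L2 (NB.Site d))}
    (hW : NB.IsGrp (-1) (fun x => 2 * d + ω x) W) {U : ℝ → L2 d → L2 d}
    (hU : IsPropagator ω U) (t : ℝ) (u : L2 d) : U t u = W.U t u := by
  have h := NB.ALL.a_UN d (-1) _ W hW (fun t => U t u) (fun _ => 0)
    continuous_const (sol_of_prop hU u) t
  simpa [hU.zero u] using h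

/-- the absolutely continuous states, for the bounded operator -/
theorem ac_spm {d : ℕ} {K : ℝ} {ω : (Fin d → ℤ) → ℝ} (hω : ∀ x, |ω x| ≤ K)
    {W : NB.UG (NB.L2 (NB.Site d))} (hW : NB.IsGrp (-1) (fun x => 2 * d + ω x) W)
    {U : ℝ → L2 d → L2 d} (hU : IsPropagator ω U) {u : L2 d} (hu : IsAC U u) :
    Pool.Agent.TH980.IM.spm (Pool.Agent.TH980.IM.HV_sa K ω) u ≪ volume := by
  have hUx : ∀ t u, U t u = Ex (Pool.Agent.TH980.IM.HV K ω) t u := by
    intro t u
    rw [prop_eq hW hU, grp_Ex hω hW]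
  obtain ⟨m, hms, hm3⟩ := hu
  have hfin := hms.1
  have hmm : m = Pool.Agent.TH980.IM.spm (Pool.Agent.TH980.IM.HV_sa K ω) u :=
    spm_unique _ u m fun t => by rw [← hUx, hms.2 t]
  rw [← hmm]
  exact hm3

/-- Let `d ≥ 1` and let `μ` be a law with bounded support which is not a point mass. For every
potential the unitary group exists and is unique. For every nontrivial character `χ`, almost surely,
for every absolutely continuous state `u`, the average over `[0, T]` of `⟨U_s w, χ U_s u⟩` tends to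
zero as `T → ∞`, uniformly in `‖w‖ ≤ 1`. For every direction `n ≠ 0`, almost surely, for every
absolutely continuous state `u` and every `R`, the fraction of time spent in the slab
`{|n·x - c| ≤ R}` tends to zero as `T → ∞`, uniformly in the position `c`. -/
theorem result (d : ℕ) (hd : 1 ≤ d) (μ : Measure ℝ) [IsProbabilityMeasure μ]
    (hb : ∃ K : ℝ, ∀ᵐ r ∂μ, |r| ≤ K) (hμ : ∀ r : ℝ, μ {r} ≠ 1) :
    (∀ ω : Pot d, ∃! U : ℝ → L2 d → L2 d, IsPropagator ω U) ∧
    ∀ U : Pot d → ℝ → L2 d → L2 d, (∀ ω, IsPropagator ω (U ω)) →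
      (∀ χ : (Fin d → ℤ) → ℂ, IsNontrivialCharacter χ →
        ∀ᵐ ω ∂(iid d μ), ∀ u, IsAC (U ω) u →
          ∀ ε : ℝ, 0 < ε → ∀ᶠ T : ℝ in atTop, ∀ w : L2 d,
            ‖timeAverage (U ω) χ w u T‖ ≤ ε * ‖w‖) ∧
      (∀ n : Fin d → ℝ, n ≠ 0 →
        ∀ᵐ ω ∂(iid d μ), ∀ u, IsAC (U ω) u →
          ∀ R ε : ℝ, 0 < ε → ∀ᶠ T : ℝ in atTop, ∀ c : ℝ,
            timeFraction (U ω) (Slab n c R) u T ≤ ε) := by
  obtain ⟨K, hK⟩ := hb
  refine ⟨fun ω => ?_, fun U hU => ?_⟩
  · obtain ⟨W, hW⟩ := NB.ALL.a_EX d (-1) (fun x => 2 * d + ω x)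
    refine ⟨fun t u => W.U t u, prop_of_grp hW, fun U hU => ?_⟩
    funext t u
    exact prop_eq hW hU t u
  choose ev hev using fun ω : NB.Site d → ℝ => NB.ALL.a_EX d (-1) (fun x => 2 * d + ω x)
  have hUe : ∀ ω t u, U ω t u = (ev ω).U t u := fun ω t u => prop_eq (hev ω) (hU ω) t u
  have hbd : ∀ᵐ ω ∂(NB.PP d μ), ∀ x, |ω x| ≤ K := by
    rw [ae_all_iff]
    intro x
    exact (measurePreserving_eval_infinitePi
      (fun _ : Fin d → ℤ => μ) x).quasiMeasurePreserving.ae hK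
  refine ⟨fun χ hχ => ?_, fun n hn => ?_⟩
  · obtain ⟨x0, hx0⟩ := hχ.nontrivial
    have hc : Chr χ := ⟨hχ.mul, hχ.norm⟩
    have hA := tw_all hd hK hμ hev hc hx0
    have key : ∀ᵐ ω ∂(NB.PP d μ), ∀ u, IsAC (U ω) u →
          ∀ ε : ℝ, 0 < ε → ∀ᶠ T : ℝ in atTop, ∀ w : L2 d,
            ‖timeAverage (U ω) χ w u T‖ ≤ ε * ‖w‖ := by
      filter_upwards [hA, hbd] with ω h1 h2 u hu ε hε
      have h3 := (h1 u (ac_spm h2 (hev ω) (hU ω) hu)).norm
      rw [norm_zero] at h3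
      filter_upwards [h3.eventually (gt_mem_nhds hε)] with T hT w
      have e : timeAverage (U ω) χ w u T = ⟪w, ((T : ℂ)⁻¹) • ∫ s in (0 : ℝ)..T,
          (ev ω).U (-s) (cmul χ hc.nrm ((ev ω).U s u))⟫_ℂ := by
        rw [inner_smul_right]
        unfold timeAverage
        congr 1
        have h4 := (innerSL ℂ w).intervalIntegral_comp_comm
          ((NB.BP.g_cont (ev ω) (cmul χ hc.nrm) u).intervalIntegrable (μ := volume) 0 T)
        have e2 : ∀ s : ℝ, (innerSL ℂ w) (NB.BP.g (ev ω) (cmul χ hc.nrm) u s) =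
            ∑' x, χ x * (conj ((U ω s w) x) * (U ω s u) x) := by
          intro s
          rw [hUe, hUe, ← inner_bmul2 χ (fun x => (hc.nrm x).le), ← cmul_eq_bmul χ hc.nrm]
          show ⟪w, (ev ω).U (-s) (cmul χ hc.nrm ((ev ω).U s u))⟫_ℂ = _
          have h5 := NB.STAT.inner_adj (ev ω) (-s) w (cmul χ hc.nrm ((ev ω).U s u))
          rw [neg_neg] at h5
          exact h5
        simp_rw [e2] at h4
        exact h4
      rw [e]
      refine (norm_inner_le_norm _ _).trans ?_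
      rw [mul_comm]
      exact mul_le_mul_of_nonneg_right hT.le (norm_nonneg _)
    exact key
  · obtain ⟨i0, hi0⟩ : ∃ i0, n i0 ≠ 0 := by
      by_contra hcon
      push Not at hcon
      exact hn (funext hcon)
    have hA : ∀ᵐ ω ∂(NB.PP d μ), ∀ (R M : ℕ) (k : ℤ), k ≠ 0 → |k| ≤ M → ∀ ψ,
        Pool.Agent.TH980.IM.spm (Pool.Agent.TH980.IM.HV_sa K ω) ψ ≪ volume →
          Van (ev ω) ψ (fun i => (k : ℝ) * tau n i0 R M * n i) := by
      rw [ae_all_iff]
      intro R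
      rw [ae_all_iff]
      intro M
      rw [ae_all_iff]
      intro k
      by_cases hk : k ≠ 0 ∧ |k| ≤ M
      · have := tw_all hd hK hμ hev (chr_tch (fun i => (k : ℝ) * tau n i0 R M * n i))
          (tau_phase n i0 hi0 R M k hk.1 hk.2)
        filter_upwards [this] with ω hω _ _ ψ hψ
        exact hω ψ hψ
      · exact ae_of_all _ fun ω h1 h2 => absurd ⟨h1, h2⟩ hk
    have key : ∀ᵐ ω ∂(NB.PP d μ), ∀ u, IsAC (U ω) u →
          ∀ R ε : ℝ, 0 < ε → ∀ᶠ T : ℝ in atTop, ∀ c : ℝ,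
            timeFraction (U ω) (Slab n c R) u T ≤ ε := by
      filter_upwards [hA, hbd] with ω h1 h2 u hu R ε hε
      have h3 := ac_spm h2 (hev ω) (hU ω) hu
      have h4 := slabs (ev ω) u n i0 ⌈R⌉₊ (fun M k hk hkM => h1 ⌈R⌉₊ M k hk hkM u h3) ε hε
      filter_upwards [h4, eventually_gt_atTop (0 : ℝ)] with T hT hT0 c
      refine le_trans ?_ (hT c)
      have e : timeFraction (U ω) (Slab n c R) u T =
          T⁻¹ * ∫ s in (0 : ℝ)..T, mass (slab n c R) ((ev ω).U s u) := by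
        unfold timeFraction
        congr 1
        refine intervalIntegral.integral_congr fun s _ => ?_
        simp only [hUe]
        rfl
      rw [e]
      refine mul_le_mul_of_nonneg_left ?_ (inv_nonneg.2 hT0.le)
      refine intervalIntegral.integral_mono_on hT0.le
        ((cont_mass (ev ω) _ u).intervalIntegrable _ _)
        ((cont_mass (ev ω) _ u).intervalIntegrable _ _) fun s _ => ?_
      refine mass_mono (fun x hx => ?_) _
      have hx' : |∑ i, n i * (x i : ℝ) - c| ≤ R := hx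
      exact hx'.trans (Nat.le_ceil R)
    exact key

end Pool.Agent.Results.MP_d0f69c_mp.SlabEscape
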